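import Pool.Agent.H7.GF.Targets1
import Pool.Agent.H7.GF.Basic

/-! AN3 (helper56). -/

set_option autoImplicit false

open Polynomial NumberField Module
open Pool.Agent.H7.GF

namespace Pool.Agent.H56.GF

theorem toQ_minpoly (F : Type) [Field F] [NumberField F] (θ : 𝓞 F) :
    toQ (minpoly ℤ θ) = minpoly ℚ (θ : F) := by
  have h1 : minpoly ℤ θ = minpoly ℤ (θ : F) := (RingOfIntegers.minpoly_coe θ).symm
  have h2 : IsIntegral ℤ (θ : F) := RingOfIntegers.isIntegral_coe θ
  rw [toQ, h1, minpoly.isIntegrallyClosed_eq_field_fractions' ℚ h2]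
  rfl

theorem adjoin_top (F : Type) [Field F] [NumberField F] (θ : 𝓞 F)
    (h : finrank ℚ F = (minpoly ℤ θ).natDegree) : Algebra.adjoin ℚ {(θ : F)} = ⊤ := by
  have hint : IsIntegral ℚ (θ : F) := IsIntegral.of_finite ℚ _
  have h1 : IntermediateField.adjoin ℚ {(θ : F)} = ⊤ := by
    rw [Field.primitive_element_iff_minpoly_natDegree_eq, ← toQ_minpoly, h, toQ,
      Polynomial.natDegree_map_eq_of_injective (Int.castRingHom ℚ).injective_int]
  have h2 := IntermediateField.adjoin_simple_toSubalgebra_of_isAlgebraic hint.isAlgebraic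
  rw [← h2, h1, IntermediateField.top_toSubalgebra]

/-- a splitting field -/
theorem exists_split (f : ℚ[X]) : ∃ (L : Type) (_ : Field L) (_ : CharZero L),
    Polynomial.IsSplittingField ℚ L f := by
  have h0 : CharZero f.SplittingField :=
    charZero_of_injective_algebraMap (algebraMap ℚ f.SplittingField).injective
  refine ⟨f.SplittingField, inferInstance, h0, ?_⟩
  have h1 := Polynomial.IsSplittingField.splittingField f
  have h2 : ∀ (i1 i2 : Algebra ℚ f.SplittingField),
      @Polynomial.IsSplittingField ℚ f.SplittingField _ _ i1 f →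
      @Polynomial.IsSplittingField ℚ f.SplittingField _ _ i2 f := by
    intro i1 i2 h
    have h3 : i1 = i2 := Subsingleton.elim _ _
    subst h3
    exact h
  exact h2 _ _ h1

/-- the compositum -/
theorem splitting (F : Type) [Field F] [NumberField F] (θ : 𝓞 F)
    (h : finrank ℚ F = (minpoly ℤ θ).natDegree) (L : Type) [Field L] [Algebra ℚ L]
    [hL : Polynomial.IsSplittingField ℚ L (toQ (minpoly ℤ θ))] :
    Nonempty (F →ₐ[ℚ] L) ∧ (⨆ φ : F →ₐ[ℚ] L, φ.fieldRange) = ⊤ := by
  have hint : IsIntegral ℚ (θ : F) := IsIntegral.of_finite ℚ _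
  let pb : PowerBasis ℚ F := PowerBasis.ofAdjoinEqTop hint (adjoin_top F θ h)
  have hgen : pb.gen = (θ : F) := PowerBasis.ofAdjoinEqTop_gen hint (adjoin_top F θ h)
  have hex : ∀ y : L, aeval y (minpoly ℚ (θ : F)) = 0 → ∃ φ : F →ₐ[ℚ] L, φ (θ : F) = y := by
    intro y hy
    rw [← hgen] at hy
    refine ⟨pb.lift y hy, ?_⟩
    rw [← hgen]
    exact pb.lift_gen y hy
  have hspl : ((toQ (minpoly ℤ θ)).map (algebraMap ℚ L)).Splits := hL.splits'
  constructor
  · have hdeg : ((toQ (minpoly ℤ θ)).map (algebraMap ℚ L)).degree ≠ 0 := by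
      rw [toQ_minpoly, Polynomial.degree_map]
      exact (minpoly.degree_pos hint).ne'
    obtain ⟨y, hy⟩ := hspl.exists_eval_eq_zero hdeg
    obtain ⟨φ, -⟩ := hex y (by
      rw [← toQ_minpoly, ← Polynomial.eval_map_algebraMap]
      exact hy)
    exact ⟨φ⟩
  · rw [eq_top_iff]
    have h1 : Algebra.adjoin ℚ ((toQ (minpoly ℤ θ)).rootSet L) ≤
        (⨆ φ : F →ₐ[ℚ] L, φ.fieldRange).toSubalgebra := by
      rw [Algebra.adjoin_le_iff]
      intro y hy
      rw [Polynomial.mem_rootSet] at hy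
      obtain ⟨φ, hφ⟩ := hex y (by
        rw [← toQ_minpoly]
        exact hy.2)
      have h2 : y ∈ φ.fieldRange := ⟨(θ : F), hφ⟩
      exact (le_iSup (fun φ : F →ₐ[ℚ] L => φ.fieldRange) φ) h2
    rw [hL.adjoin_rootSet'] at h1
    intro x _
    exact h1 (Algebra.mem_top : x ∈ (⊤ : Subalgebra ℚ L))

theorem an3 (hswap : T_SWAP) (hprim : T_PRIMG) : T_AN3 := by
  intro p _ F _ _ θ hdeg hno hnf hp h1
  obtain ⟨L, _, _, hL⟩ := exists_split (toQ (minpoly ℤ θ))
  haveI : FiniteDimensional ℚ L := Polynomial.IsSplittingField.finiteDimensional L (toQ (minpoly ℤ θ))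
  haveI : NumberField L := ⟨⟩
  haveI : IsGalois ℚ L := by
    have hsep : (toQ (minpoly ℤ θ)).Separable := by
      rw [toQ_minpoly]
      exact (minpoly.irreducible (IsIntegral.of_finite ℚ _)).separable
    exact IsGalois.of_separable_splitting_field hsep
  obtain ⟨h2, h3⟩ := splitting F θ hdeg L
  obtain ⟨σ, φ, ψ, h4⟩ := hswap p F L hp h1 h2 h3
  exact hprim F L θ hdeg hno inferInstance ⟨σ, φ, ψ, h4⟩ hnf

end Pool.Agent.H56.GF
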