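import Pool.Agent.H7.GF.Targets3

/-! GC3 (helper56): small cyclic cubics. -/

open Polynomial

set_option autoImplicit false

namespace Pool.Agent.H56.GF

open Pool.Agent.H7.GF

/-- monic quadratic polynomials -/
theorem monic_two {F : Type} [Field F] (h : F[X]) (hm : h.Monic) (hd : h.natDegree = 2) :
    h = X ^ 2 + C (h.coeff 1) * X + C (h.coeff 0) := by
  have h1 := hm.as_sum
  rw [hd] at h1
  simp only [Finset.sum_range_succ, Finset.sum_range_zero, pow_zero, mul_one, pow_one,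
    zero_add] at h1
  conv_lhs => rw [h1]
  ring

theorem monic_one {F : Type} [Field F] (h : F[X]) (hm : h.Monic) (hd : h.natDegree = 1) :
    h = X + C (h.coeff 0) := by
  have h1 := hm.as_sum
  rw [hd] at h1
  simp only [Finset.sum_range_succ, Finset.sum_range_zero, pow_zero, mul_one, pow_one,
    zero_add] at h1
  exact h1

theorem monic_three {R : Type} [CommRing R] (h : R[X]) (hm : h.Monic) (hd : h.natDegree = 3) :
    h = X ^ 3 + C (h.coeff 2) * X ^ 2 + C (h.coeff 1) * X + C (h.coeff 0) := by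
  have h1 := hm.as_sum
  rw [hd] at h1
  simp only [Finset.sum_range_succ, Finset.sum_range_zero, pow_zero, mul_one, pow_one,
    zero_add] at h1
  conv_lhs => rw [h1]
  ring

theorem cub_coeff {R : Type} [CommRing R] (u v w : R) :
    (X ^ 3 + C u * X ^ 2 + C v * X + C w : R[X]).coeff 2 = u ∧
    (X ^ 3 + C u * X ^ 2 + C v * X + C w : R[X]).coeff 1 = v ∧
    (X ^ 3 + C u * X ^ 2 + C v * X + C w : R[X]).coeff 0 = w := by
  refine ⟨?_, ?_, ?_⟩ <;> simp [coeff_X, coeff_C, coeff_X_pow]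

theorem quad_coeff {R : Type} [CommRing R] (u v w : R) :
    (C u * X ^ 2 + C v * X + C w : R[X]).coeff 2 = u ∧
    (C u * X ^ 2 + C v * X + C w : R[X]).coeff 1 = v ∧
    (C u * X ^ 2 + C v * X + C w : R[X]).coeff 0 = w := by
  refine ⟨?_, ?_, ?_⟩ <;> simp [coeff_X, coeff_C, coeff_X_pow]

/-- local structure -/
theorem cube_local {F : Type} [Field F] (h2 : (2 : F) ≠ 0) (h3 : (3 : F) ≠ 0) (f : F[X])
    (hf : f.Monic) (hd : f.natDegree = 3) (hI : IXp 2 f) :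
    ∃ s : F, f.coeff 2 = 3 * s ∧ f.coeff 1 = 3 * s ^ 2 ∧ f.coeff 0 = s ^ 3 := by
  obtain ⟨h, hm, hdeg, ⟨q, hq⟩, ⟨w, hw⟩⟩ := hI
  have hf3 := monic_three f hf hd
  have hder : derivative f = C 3 * X ^ 2 + C (2 * f.coeff 2) * X + C (f.coeff 1) := by
    conv_lhs => rw [hf3]
    simp only [derivative_add, derivative_mul, derivative_C, derivative_X_pow, derivative_X,
      zero_mul, zero_add, mul_one, add_zero, map_mul]
    norm_num
    ring
  have hq0 : q ≠ 0 := by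
    rintro rfl
    rw [mul_zero] at hq
    rw [hq] at hd
    simp at hd
  have hqm : q.Monic := hm.of_mul_monic_left (hq ▸ hf)
  have hdq : h.natDegree + q.natDegree = 3 := by
    rw [← hm.natDegree_mul hqm, ← hq, hd]
  have hder2 : (derivative f).natDegree = 2 := by
    rw [hder]
    exact natDegree_quadratic h3
  have hderne : derivative f ≠ 0 := by
    intro h0
    rw [h0] at hder2
    simp at hder2
  have hw0 : w ≠ 0 := by
    rintro rfl
    rw [mul_zero] at hw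
    exact hderne hw
  have hdw : h.natDegree + w.natDegree = 2 := by
    rw [← natDegree_mul hm.ne_zero hw0, ← hw, hder2]
  have hh2 : h.natDegree = 2 := by omega
  have hq1 : q.natDegree = 1 := by omega
  have hwd : w.natDegree = 0 := by omega
  obtain ⟨u, hu⟩ := natDegree_eq_zero.1 hwd
  have eh := monic_two h hm hh2
  have eq1 := monic_one q hqm hq1
  set a := h.coeff 1
  set b := h.coeff 0
  set s := q.coeff 0
  have hF : f = X ^ 3 + C (a + s) * X ^ 2 + C (b + a * s) * X + C (b * s) := by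
    rw [hq, eh, eq1]
    simp only [map_add, map_mul]
    ring
  have hD : derivative f = C u * X ^ 2 + C (u * a) * X + C (u * b) := by
    rw [hw, eh, ← hu]
    simp only [map_mul]
    ring
  obtain ⟨c2, c1, c0⟩ := cub_coeff (a + s) (b + a * s) (b * s)
  rw [← hF] at c2 c1 c0
  obtain ⟨d2, d1, d0⟩ := quad_coeff u (u * a) (u * b)
  rw [← hD] at d2 d1 d0
  obtain ⟨e2, e1, e0⟩ := quad_coeff 3 (2 * f.coeff 2) (f.coeff 1)
  rw [← hder] at e2 e1 e0
  have hu3 : u = 3 := by rw [← d2, e2]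
  have ha : a = 2 * s := by
    have := d1.symm.trans e1
    rw [hu3, c2] at this
    linear_combination this
  have hb : b = s ^ 2 := by
    have := d0.symm.trans e0
    rw [hu3, c1, ha] at this
    have h4 : 2 * (b - s ^ 2) = 0 := by linear_combination this
    rcases mul_eq_zero.1 h4 with h5 | h5
    · exact absurd h5 h2
    · linear_combination h5
  refine ⟨s, ?_, ?_, ?_⟩
  · rw [c2, ha]
    ring
  · rw [c1, ha, hb]
    ring
  · rw [c0, hb]
    ring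

/-- divisibility of the Hessian coefficients -/
theorem hess_dvd (p : ℕ) (hp : p.Prime) (h7 : 7 < p) (g : ℤ[X]) (hm : g.Monic)
    (hd : g.natDegree = 3) (hI : IX p 2 g) :
    (p : ℤ) ∣ g.coeff 2 ^ 2 - 3 * g.coeff 1 ∧ (p : ℤ) ∣ g.coeff 2 * g.coeff 1 - 9 * g.coeff 0 ∧
    (p : ℤ) ∣ g.coeff 1 ^ 2 - 3 * g.coeff 2 * g.coeff 0 := by
  haveI : Fact p.Prime := ⟨hp⟩
  have hne : ∀ k : ℕ, 0 < k → k < p → (k : ZMod p) ≠ 0 := by
    intro k hk hkp h0
    rw [ZMod.natCast_eq_zero_iff] at h0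
    exact absurd (Nat.le_of_dvd hk h0) (by omega)
  have h2 : (2 : ZMod p) ≠ 0 := by exact_mod_cast hne 2 (by norm_num) (by omega)
  have h3 : (3 : ZMod p) ≠ 0 := by exact_mod_cast hne 3 (by norm_num) (by omega)
  have hm' : (H7.GF.toZ p g).Monic := hm.map _
  have hd' : (H7.GF.toZ p g).natDegree = 3 := by
    unfold H7.GF.toZ
    rw [hm.natDegree_map, hd]
  obtain ⟨s, e2, e1, e0⟩ := cube_local h2 h3 (H7.GF.toZ p g) hm' hd' hI
  have k2 : ((g.coeff 2 : ℤ) : ZMod p) = 3 * s := by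
    rw [← e2]
    unfold H7.GF.toZ
    rw [coeff_map]
    rfl
  have k1 : ((g.coeff 1 : ℤ) : ZMod p) = 3 * s ^ 2 := by
    rw [← e1]
    unfold H7.GF.toZ
    rw [coeff_map]
    rfl
  have k0 : ((g.coeff 0 : ℤ) : ZMod p) = s ^ 3 := by
    rw [← e0]
    unfold H7.GF.toZ
    rw [coeff_map]
    rfl
  refine ⟨?_, ?_, ?_⟩
  · rw [← ZMod.intCast_zmod_eq_zero_iff_dvd]
    push_cast
    rw [k2, k1]
    ring
  · rw [← ZMod.intCast_zmod_eq_zero_iff_dvd]
    push_cast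
    rw [k2, k1, k0]
    ring
  · rw [← ZMod.intCast_zmod_eq_zero_iff_dvd]
    push_cast
    rw [k2, k1, k0]
    ring

theorem sqf_dvd (C : ℕ) (hC : Squarefree C) (x : ℤ)
    (h : ∀ p, p.Prime → p ∣ C → (p : ℤ) ∣ x) : (C : ℤ) ∣ x := by
  rw [Int.natCast_dvd]
  rw [← Nat.prod_primeFactors_of_squarefree hC]
  refine Finset.prod_primes_dvd _ (fun p hp => (Nat.prime_of_mem_primeFactors hp).prime) ?_
  intro p hp
  rw [← Int.natCast_dvd]
  exact h p (Nat.prime_of_mem_primeFactors hp) (Nat.dvd_of_mem_primeFactors hp)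

/-- a cubic with vanishing discriminant is reducible -/
theorem disc_zero (a b c : ℚ)
    (h : 4 * (a ^ 2 - 3 * b) * (b ^ 2 - 3 * a * c) = (a * b - 9 * c) ^ 2) :
    ∃ r : ℚ, r ^ 3 + a * r ^ 2 + b * r + c = 0 := by
  by_cases hP : a ^ 2 - 3 * b = 0
  · have hQ : a * b - 9 * c = 0 := by
      rw [hP] at h
      have : (a * b - 9 * c) ^ 2 = 0 := by rw [← h]; ring
      exact pow_eq_zero_iff (two_ne_zero) |>.1 this
    refine ⟨-a / 3, ?_⟩
    have hb : b = a ^ 2 / 3 := by linear_combination -hP / 3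
    have hc : c = a * b / 9 := by linear_combination -hQ / 9
    rw [hc, hb]
    ring
  · refine ⟨-(a * b - 9 * c) / (2 * (a ^ 2 - 3 * b)), ?_⟩
    have h8 : (8 * (a ^ 2 - 3 * b) ^ 3) ≠ 0 := mul_ne_zero (by norm_num) (pow_ne_zero _ hP)
    have h9 : 8 * (a ^ 2 - 3 * b) ^ 3 * ((-(a * b - 9 * c) / (2 * (a ^ 2 - 3 * b))) ^ 3 +
        a * (-(a * b - 9 * c) / (2 * (a ^ 2 - 3 * b))) ^ 2 +
        b * (-(a * b - 9 * c) / (2 * (a ^ 2 - 3 * b))) + c) = 0 := by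
      set P := a ^ 2 - 3 * b with hPd
      set Q := a * b - 9 * c with hQd
      have e : 8 * P ^ 3 * ((-Q / (2 * P)) ^ 3 + a * (-Q / (2 * P)) ^ 2 + b * (-Q / (2 * P)) + c) =
          -Q ^ 3 + 2 * a * P * Q ^ 2 - 4 * b * P ^ 2 * Q + 8 * c * P ^ 3 := by
        field_simp
        ring
      rw [e]
      have hR : b ^ 2 - 3 * a * c = (a * Q - P * b) / 3 := by
        rw [hPd, hQd]
        ring
      have hc : c * P = (b * Q - a * (b ^ 2 - 3 * a * c)) / 3 := by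
        rw [hPd, hQd]
        ring
      rw [hR] at hc h
      linear_combination (8 * P ^ 2) * hc + (Q - 2 / 3 * a * P) * h
    rcases mul_eq_zero.1 h9 with h10 | h10
    · exact absurd h10 h8
    · exact h10

theorem disc_ne (g : ℤ[X]) (hm : g.Monic) (hd : g.natDegree = 3) (hirr : Irreducible (toQ g))
    (y : ℤ) (hy : 4 * (g.coeff 2 ^ 2 - 3 * g.coeff 1) * (g.coeff 1 ^ 2 - 3 * g.coeff 2 * g.coeff 0)
      - (g.coeff 2 * g.coeff 1 - 9 * g.coeff 0) ^ 2 = 3 * y ^ 2) : y ≠ 0 := by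
  rintro rfl
  obtain ⟨r, hr⟩ := disc_zero (g.coeff 2) (g.coeff 1) (g.coeff 0) (by
    have : ((4 * (g.coeff 2 ^ 2 - 3 * g.coeff 1) * (g.coeff 1 ^ 2 - 3 * g.coeff 2 * g.coeff 0)
      - (g.coeff 2 * g.coeff 1 - 9 * g.coeff 0) ^ 2 : ℤ) : ℚ) = 0 := by
      rw [hy]
      norm_num
    push_cast at this
    linear_combination this)
  have hmq : (toQ g).Monic := hm.map _
  have hdq : (toQ g).natDegree = 3 := by
    unfold toQ
    rw [hm.natDegree_map, hd]
  have hroot : (toQ g).IsRoot r := by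
    rw [IsRoot.def, monic_three (toQ g) hmq hdq]
    simp only [eval_add, eval_mul, eval_pow, eval_X, eval_C]
    unfold toQ
    rw [coeff_map, coeff_map, coeff_map]
    exact hr
  have h1 := degree_eq_one_of_irreducible_of_root hirr hroot
  rw [degree_eq_natDegree hirr.ne_zero, hdq] at h1
  norm_num at h1

/-- the integer identities -/
theorem identities (a b c : ℤ) (D m k l : ℤ) (hD : D ≠ 0)
    (hP : a ^ 2 - 3 * b = D * m) (hQ : a * b - 9 * c = D * k) (hR : b ^ 2 - 3 * a * c = D * l) :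
    k * a - m * b = 3 * l ∧ b * k - a * l = 3 * c * m := by
  constructor
  · refine mul_left_cancel₀ hD ?_
    linear_combination (-a) * hQ + b * hP + 3 * hR
  · refine mul_left_cancel₀ hD ?_
    linear_combination (-b) * hQ + a * hR + 3 * c * hP

/-- all data of a small cubic -/
theorem data (c : ℝ) (hc : 0 < c) (Y : ℝ) (hY : 1 ≤ Y) (g : ℤ[X]) (hg : RelG3 c Y g) :
    ∃ m k l t : ℤ, m ≠ 0 ∧ k ^ 2 + 3 * t ^ 2 = 4 * m * l ∧
      k * g.coeff 2 - m * g.coeff 1 = 3 * l ∧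
      g.coeff 1 * k - g.coeff 2 * l = 3 * g.coeff 0 * m ∧
      |(m : ℝ)| ≤ 9 + 3 * c ∧ |(k : ℝ)| ≤ 12 * c * Real.sqrt Y ∧
      |(t : ℝ)| ≤ Real.sqrt (4 * (9 + 3 * c) * (c ^ 2 + 9 * c)) * Real.sqrt Y := by
  obtain ⟨hm, hd, h2, hirr, ⟨y, hy⟩, C, hsq, hIX, hC1, hCY, h1, h0⟩ := hg
  have hDpos : (0 : ℤ) < C := by exact_mod_cast hC1
  have hC1r : (1 : ℝ) ≤ C := by exact_mod_cast hC1
  have hCpos : (0 : ℝ) < C := by linarith
  have hyne := disc_ne g hm hd hirr y hy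
  obtain ⟨m, hP⟩ := sqf_dvd C hsq _ (fun p hp hpC =>
    (hess_dvd p hp (hIX p hp hpC).1 g hm hd (hIX p hp hpC).2).1)
  obtain ⟨k, hQ⟩ := sqf_dvd C hsq _ (fun p hp hpC =>
    (hess_dvd p hp (hIX p hp hpC).1 g hm hd (hIX p hp hpC).2).2.1)
  obtain ⟨l, hR⟩ := sqf_dvd C hsq _ (fun p hp hpC =>
    (hess_dvd p hp (hIX p hp hpC).1 g hm hd (hIX p hp hpC).2).2.2)
  obtain ⟨t, hT⟩ := sqf_dvd C hsq y (fun p hp hpC => by
    obtain ⟨⟨m', hP'⟩, ⟨k', hQ'⟩, ⟨l', hR'⟩⟩ := hess_dvd p hp (hIX p hp hpC).1 g hm hd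
      (hIX p hp hpC).2
    have hpp : Prime (p : ℤ) := Nat.prime_iff_prime_int.1 hp
    have h3y : (p : ℤ) ∣ 3 * y ^ 2 := by
      rw [← hy, hP', hQ', hR']
      exact ⟨4 * m' * (p * l') - k' * (p * k'), by ring⟩
    rcases hpp.dvd_or_dvd h3y with h3 | h3
    · exfalso
      have h3' : p ∣ 3 := by exact_mod_cast h3
      have := Nat.le_of_dvd (by norm_num) h3'
      have := (hIX p hp hpC).1
      omega
    · exact hpp.dvd_of_dvd_pow h3)
  obtain ⟨i1, i2⟩ := identities _ _ _ (C : ℤ) m k l hDpos.ne' hP hQ hR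
  have hmain : k ^ 2 + 3 * t ^ 2 = 4 * m * l := by
    rw [hP, hQ, hR, hT] at hy
    have hD2 : ((C : ℤ) ^ 2) ≠ 0 := pow_ne_zero _ hDpos.ne'
    refine mul_left_cancel₀ hD2 ?_
    linear_combination -hy
  have htne : t ≠ 0 := by
    rintro rfl
    rw [mul_zero] at hT
    exact hyne hT
  have hmne : m ≠ 0 := by
    rintro rfl
    have : 0 < t ^ 2 := by positivity
    nlinarith [sq_nonneg k]
  have hPr : ((g.coeff 2 : ℝ)) ^ 2 - 3 * (g.coeff 1 : ℝ) = C * m := by exact_mod_cast hP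
  have hQr : ((g.coeff 2 : ℝ)) * (g.coeff 1 : ℝ) - 9 * (g.coeff 0 : ℝ) = C * k := by
    exact_mod_cast hQ
  have hRr : ((g.coeff 1 : ℝ)) ^ 2 - 3 * (g.coeff 2 : ℝ) * (g.coeff 0 : ℝ) = C * l := by
    exact_mod_cast hR
  have hmr : ((k : ℝ)) ^ 2 + 3 * (t : ℝ) ^ 2 = 4 * m * l := by exact_mod_cast hmain
  set A := (g.coeff 2 : ℝ)
  set B := (g.coeff 1 : ℝ)
  set E := (g.coeff 0 : ℝ)
  have hs : (C : ℝ) ^ (3 / 2 : ℝ) = C * Real.sqrt C := by
    rw [Real.sqrt_eq_rpow, ← Real.rpow_one_add' hCpos.le (by norm_num)]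
    norm_num
  rw [hs] at h0
  have hsC : Real.sqrt C ≤ Real.sqrt Y := Real.sqrt_le_sqrt hCY
  have hs1 : 1 ≤ Real.sqrt C := by
    rw [Real.one_le_sqrt]
    exact hC1r
  have hsC2 : Real.sqrt C * Real.sqrt C = C := Real.mul_self_sqrt hCpos.le
  have hsCC : Real.sqrt C ≤ C := by nlinarith
  have hmb : |(m : ℝ)| ≤ 9 + 3 * c := by
    have e1 : |(C : ℝ) * m| ≤ 9 + 3 * (c * C) := by
      rw [← hPr]
      calc |A ^ 2 - 3 * B| ≤ |A ^ 2| + |3 * B| := abs_sub _ _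
        _ = |A| ^ 2 + 3 * |B| := by rw [abs_pow, abs_mul, abs_of_pos (by norm_num : (0:ℝ) < 3)]
        _ ≤ 3 ^ 2 + 3 * (c * C) := by gcongr
        _ = 9 + 3 * (c * C) := by norm_num
    rw [abs_mul, abs_of_pos hCpos] at e1
    have e2 : (C : ℝ) * |(m : ℝ)| ≤ C * (9 + 3 * c) := by nlinarith
    exact le_of_mul_le_mul_left e2 hCpos
  have hkb : |(k : ℝ)| ≤ 12 * c * Real.sqrt C := by
    have e1 : |(C : ℝ) * k| ≤ 3 * (c * C) + 9 * (c * (C * Real.sqrt C)) := by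
      rw [← hQr]
      calc |A * B - 9 * E| ≤ |A * B| + |9 * E| := abs_sub _ _
        _ = |A| * |B| + 9 * |E| := by
          rw [abs_mul, abs_mul, abs_of_pos (by norm_num : (0:ℝ) < 9)]
        _ ≤ 3 * (c * C) + 9 * (c * (C * Real.sqrt C)) := by gcongr
    rw [abs_mul, abs_of_pos hCpos] at e1
    have e2 : (C : ℝ) * |(k : ℝ)| ≤ C * (12 * c * Real.sqrt C) := by
      have : 3 * (c * C) ≤ 3 * (c * (C * Real.sqrt C)) := by
        gcongr
        nlinarith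
      nlinarith
    exact le_of_mul_le_mul_left e2 hCpos
  have hlb : |(l : ℝ)| ≤ (c ^ 2 + 9 * c) * C := by
    have e1 : |(C : ℝ) * l| ≤ (c * C) ^ 2 + 3 * 3 * (c * (C * Real.sqrt C)) := by
      rw [← hRr]
      calc |B ^ 2 - 3 * A * E| ≤ |B ^ 2| + |3 * A * E| := abs_sub _ _
        _ = |B| ^ 2 + 3 * |A| * |E| := by
          rw [abs_pow, abs_mul, abs_mul, abs_of_pos (by norm_num : (0:ℝ) < 3)]
        _ ≤ (c * C) ^ 2 + 3 * 3 * (c * (C * Real.sqrt C)) := by gcongr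
    rw [abs_mul, abs_of_pos hCpos] at e1
    have e2 : (C : ℝ) * |(l : ℝ)| ≤ C * ((c ^ 2 + 9 * c) * C) := by
      have : 9 * (c * (C * Real.sqrt C)) ≤ 9 * (c * (C * C)) := by gcongr
      nlinarith
    exact le_of_mul_le_mul_left e2 hCpos
  have htb : (t : ℝ) ^ 2 ≤ 4 * (9 + 3 * c) * (c ^ 2 + 9 * c) * C := by
    have e1 : 4 * (m : ℝ) * l ≤ 4 * ((9 + 3 * c) * ((c ^ 2 + 9 * c) * C)) := by
      have : (m : ℝ) * l ≤ (9 + 3 * c) * ((c ^ 2 + 9 * c) * C) := by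
        calc (m : ℝ) * l ≤ |(m : ℝ) * l| := le_abs_self _
          _ = |(m : ℝ)| * |(l : ℝ)| := abs_mul _ _
          _ ≤ _ := by
            refine mul_le_mul hmb hlb (abs_nonneg _) (by positivity)
      nlinarith
    nlinarith [sq_nonneg (k : ℝ), sq_nonneg (t : ℝ)]
  refine ⟨m, k, l, t, hmne, hmain, i1, i2, hmb, ?_, ?_⟩
  · exact hkb.trans (by gcongr)
  · rw [← Real.sqrt_mul (by positivity)]
    refine Real.abs_le_sqrt (htb.trans ?_)
    gcongr

/-- reconstruction -/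
noncomputable def rec3 (x : ℤ × ℤ × ℤ × ℤ) : ℤ[X] :=
  let a := x.1
  let m := x.2.1
  let k := x.2.2.1
  let t := x.2.2.2
  let l := (k ^ 2 + 3 * t ^ 2) / (4 * m)
  let b := (k * a - 3 * l) / m
  X ^ 3 + C a * X ^ 2 + C b * X + C ((b * k - a * l) / (3 * m))

theorem rec3_eq (g : ℤ[X]) (hm : g.Monic) (hd : g.natDegree = 3) (m k l t : ℤ) (hm0 : m ≠ 0)
    (h1 : k ^ 2 + 3 * t ^ 2 = 4 * m * l) (h2 : k * g.coeff 2 - m * g.coeff 1 = 3 * l)
    (h3 : g.coeff 1 * k - g.coeff 2 * l = 3 * g.coeff 0 * m) :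
    rec3 (g.coeff 2, m, k, t) = g := by
  have e1 : (k ^ 2 + 3 * t ^ 2) / (4 * m) = l := by
    rw [h1]
    exact Int.mul_ediv_cancel_left _ (mul_ne_zero (by norm_num) hm0)
  have e2 : (k * g.coeff 2 - 3 * l) / m = g.coeff 1 := by
    have : k * g.coeff 2 - 3 * l = m * g.coeff 1 := by linear_combination h2
    rw [this]
    exact Int.mul_ediv_cancel_left _ hm0
  have e3 : (g.coeff 1 * k - g.coeff 2 * l) / (3 * m) = g.coeff 0 := by
    have : g.coeff 1 * k - g.coeff 2 * l = (3 * m) * g.coeff 0 := by linear_combination h3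
    rw [this]
    exact Int.mul_ediv_cancel_left _ (mul_ne_zero (by norm_num) hm0)
  unfold rec3
  simp only
  rw [e1, e2, e3]
  exact (monic_three g hm hd).symm

theorem card_Icc_sym (z : ℝ) (hz : 0 ≤ z) :
    ((Finset.Icc (-⌊z⌋) ⌊z⌋).card : ℝ) ≤ 2 * z + 1 := by
  rw [Int.card_Icc]
  have h0 : 0 ≤ ⌊z⌋ := Int.floor_nonneg.2 hz
  have h1 : ((⌊z⌋ + 1 - -⌊z⌋).toNat : ℝ) = 2 * ⌊z⌋ + 1 := by
    have : ((⌊z⌋ + 1 - -⌊z⌋).toNat : ℤ) = 2 * ⌊z⌋ + 1 := by omega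
    exact_mod_cast this
  rw [h1]
  linarith [Int.floor_le z]

theorem mem_Icc_sym (z : ℝ) (n : ℤ) (h : |(n : ℝ)| ≤ z) : n ∈ Finset.Icc (-⌊z⌋) ⌊z⌋ := by
  rw [Finset.mem_Icc]
  obtain ⟨h1, h2⟩ := abs_le.1 h
  constructor
  · have : (-n : ℤ) ≤ ⌊z⌋ := Int.le_floor.2 (by push_cast; linarith)
    omega
  · exact Int.le_floor.2 h2

theorem gc3 : T_GC3 := by
  intro c hc
  set K1 := Real.sqrt (4 * (9 + 3 * c) * (c ^ 2 + 9 * c)) with hK1
  have hK1n : 0 ≤ K1 := Real.sqrt_nonneg _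
  refine ⟨7 * (2 * (9 + 3 * c) + 1) * (24 * c + 1) * (2 * K1 + 1), fun Y hY => ?_⟩
  have hsY : 1 ≤ Real.sqrt Y := by
    rw [Real.one_le_sqrt]
    exact hY
  set box : Finset (ℤ × ℤ × ℤ × ℤ) := Finset.Icc (-⌊(3 : ℝ)⌋) ⌊(3 : ℝ)⌋ ×ˢ
    Finset.Icc (-⌊9 + 3 * c⌋) ⌊9 + 3 * c⌋ ×ˢ
    Finset.Icc (-⌊12 * c * Real.sqrt Y⌋) ⌊12 * c * Real.sqrt Y⌋ ×ˢ
    Finset.Icc (-⌊K1 * Real.sqrt Y⌋) ⌊K1 * Real.sqrt Y⌋ with hbox
  classical
  have hsub : {g : ℤ[X] | RelG3 c Y g} ⊆ (box.image rec3 : Set ℤ[X]) := by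
    intro g hg
    obtain ⟨m, k, l, t, hm0, h1, h2, h3, b1, b2, b3⟩ := data c hc Y hY g hg
    rw [Finset.coe_image]
    refine ⟨(g.coeff 2, m, k, t), ?_, rec3_eq g hg.1 hg.2.1 m k l t hm0 h1 h2 h3⟩
    rw [hbox]
    simp only [Finset.coe_product, Set.mem_prod, Finset.mem_coe]
    exact ⟨mem_Icc_sym _ _ hg.2.2.1, mem_Icc_sym _ _ b1, mem_Icc_sym _ _ b2,
      mem_Icc_sym _ _ b3⟩
  refine ⟨(Finset.finite_toSet _).subset hsub, ?_⟩
  have hcard : ({g : ℤ[X] | RelG3 c Y g}.ncard : ℝ) ≤ box.card := by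
    have h1 := Set.ncard_le_ncard hsub (Finset.finite_toSet _)
    rw [Set.ncard_coe_finset] at h1
    exact_mod_cast h1.trans Finset.card_image_le
  refine hcard.trans ?_
  rw [hbox, Finset.card_product, Finset.card_product, Finset.card_product]
  push_cast
  have c1 := card_Icc_sym 3 (by norm_num)
  have c2 := card_Icc_sym (9 + 3 * c) (by positivity)
  have c3 := card_Icc_sym (12 * c * Real.sqrt Y) (by positivity)
  have c4 := card_Icc_sym (K1 * Real.sqrt Y) (by positivity)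
  have c3' : 2 * (12 * c * Real.sqrt Y) + 1 ≤ (24 * c + 1) * Real.sqrt Y := by nlinarith
  have c4' : 2 * (K1 * Real.sqrt Y) + 1 ≤ (2 * K1 + 1) * Real.sqrt Y := by nlinarith
  have hYY : Real.sqrt Y * Real.sqrt Y = Y := Real.mul_self_sqrt (by linarith)
  calc _ ≤ (2 * 3 + 1) * ((2 * (9 + 3 * c) + 1) * (((24 * c + 1) * Real.sqrt Y) *
        ((2 * K1 + 1) * Real.sqrt Y))) := by
        refine mul_le_mul c1 (mul_le_mul c2 (mul_le_mul (c3.trans c3') (c4.trans c4')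
          (by positivity) (by positivity)) (by positivity) (by positivity)) (by positivity)
          (by positivity)
    _ = 7 * (2 * (9 + 3 * c) + 1) * (24 * c + 1) * (2 * K1 + 1) *
        (Real.sqrt Y * Real.sqrt Y) := by ring
    _ = _ := by rw [hYY]

end Pool.Agent.H56.GF
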