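import Pool.Agent.H7.GF.Targets3

/-! N3S (helper56): number of `s₁`. -/

set_option autoImplicit false

namespace Pool.Agent.H56.GF

open Pool.Agent.H7.GF

/-- number of units of order dividing three -/
noncomputable def c3 (N : ℕ) : ℕ := {x : (ZMod N)ˣ | x ^ 3 = 1}.ncard

theorem c3_pow (p k : ℕ) (hp : p.Prime) (hk : 0 < k) : c3 (p ^ k) ≤ 3 := by
  haveI : NeZero (p ^ k) := ⟨pow_ne_zero _ hp.ne_zero⟩
  unfold c3
  by_cases h2 : p = 2
  · subst h2
    have h1 : {x : (ZMod (2 ^ k))ˣ | x ^ 3 = 1} ⊆ {1} := by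
      intro x hx
      rw [Set.mem_singleton_iff]
      have hx3 : x ^ 3 = 1 := hx
      have hc : x ^ Fintype.card (ZMod (2 ^ k))ˣ = 1 := pow_card_eq_one
      rw [ZMod.card_units_eq_totient, Nat.totient_prime_pow hp hk] at hc
      have hg : Nat.gcd 3 (2 ^ (k - 1) * (2 - 1)) = 1 := by
        rw [Nat.add_one_sub_one, mul_one]
        exact Nat.Coprime.pow_right _ (by norm_num)
      have := pow_gcd_eq_one.2 ⟨hx3, hc⟩
      rwa [hg, pow_one] at this
    calc _ ≤ ({1} : Set (ZMod (2 ^ k))ˣ).ncard := Set.ncard_le_ncard h1 (Set.finite_singleton _)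
      _ = 1 := Set.ncard_singleton _
      _ ≤ 3 := by norm_num
  · haveI := ZMod.isCyclic_units_of_prime_pow p hp h2 k
    classical
    have h1 := IsCyclic.card_pow_eq_one_le (α := (ZMod (p ^ k))ˣ) (n := 3) (by norm_num)
    rw [Set.ncard_eq_toFinset_card', Set.toFinset_setOf]
    exact h1

theorem c3_mul (a b : ℕ) (ha : 1 < a) (hb : 1 < b) (hab : a.Coprime b) :
    c3 (a * b) ≤ c3 a * c3 b := by
  haveI : NeZero a := ⟨by omega⟩
  haveI : NeZero b := ⟨by omega⟩
  unfold c3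
  rw [← Set.ncard_prod]
  let e : (ZMod (a * b))ˣ ≃* (ZMod a)ˣ × (ZMod b)ˣ :=
    (Units.mapEquiv (ZMod.chineseRemainder hab).toMulEquiv).trans MulEquiv.prodUnits
  refine Set.ncard_le_ncard_of_injOn e ?_ e.injective.injOn (Set.toFinite _)
  intro x hx
  have hx3 : x ^ 3 = 1 := hx
  have h1 : (e x) ^ 3 = 1 := by rw [← map_pow, hx3, map_one]
  exact ⟨congrArg Prod.fst h1, congrArg Prod.snd h1⟩

theorem c3_le (N : ℕ) (hN : N ≠ 0) : c3 N ≤ 3 ^ om N := by
  induction N using Nat.recOnPosPrimePosCoprime with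
  | prime_pow p k hp hk =>
    refine (c3_pow p k hp hk).trans ?_
    have : om (p ^ k) = 1 := by
      unfold om
      rw [Nat.primeFactors_prime_pow hk.ne' hp, Finset.card_singleton]
    rw [this, pow_one]
  | zero => exact absurd rfl hN
  | one =>
    unfold c3 om
    have h1 : {x : (ZMod 1)ˣ | x ^ 3 = 1} ⊆ {1} := fun x _ => Subsingleton.elim x 1
    calc _ ≤ ({1} : Set (ZMod 1)ˣ).ncard := Set.ncard_le_ncard h1 (Set.finite_singleton _)
      _ = 1 := Set.ncard_singleton _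
      _ ≤ _ := Nat.one_le_pow _ _ (by norm_num)
  | coprime a b ha hb hab iha ihb =>
    refine (c3_mul a b ha hb hab).trans ?_
    have : om (a * b) = om a + om b := by
      unfold om
      rw [Nat.Coprime.primeFactors_mul hab, Finset.card_union_of_disjoint hab.disjoint_primeFactors]
    rw [this, pow_add]
    exact Nat.mul_le_mul (iha (by omega)) (ihb (by omega))

/-- sets of units with the same cube -/
theorem same_cube (N : ℕ) (hN : N ≠ 0) (V : Set (ZMod N)) (hu : ∀ x ∈ V, IsUnit x)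
    (hV : ∀ x ∈ V, ∀ y ∈ V, x ^ 3 = y ^ 3) : V.ncard ≤ 3 ^ om N := by
  haveI : NeZero N := ⟨hN⟩
  refine le_trans ?_ (c3_le N hN)
  rcases V.eq_empty_or_nonempty with h | ⟨y, hy⟩
  · rw [h, Set.ncard_empty]
    exact Nat.zero_le _
  · obtain ⟨v, hv⟩ := hu y hy
    classical
    unfold c3
    refine Set.ncard_le_ncard_of_injOn
      (fun x => if h : IsUnit x then h.unit * v⁻¹ else 1) ?_ ?_ (Set.toFinite _)
    · intro x hx
      have hxu := hu x hx
      simp only [dif_pos hxu, Set.mem_setOf_eq]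
      rw [mul_pow, inv_pow, mul_inv_eq_one]
      apply Units.ext
      push_cast
      rw [IsUnit.unit_spec, hv]
      exact hV x hx y hy
    · intro x hx x' hx' h
      have hxu := hu x hx
      have hxu' := hu x' hx'
      simp only [dif_pos hxu, dif_pos hxu'] at h
      have h2 := mul_right_cancel h
      have := congrArg Units.val h2
      simpa using this

/-- integers of a residue class in an interval -/
theorem fib (F : Finset ℤ) (D : ℤ) (hD : 0 < D) (S : ℝ) (hS : 0 ≤ S)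
    (hF : ∀ x ∈ F, |(x : ℝ)| ≤ S) (hc : ∀ x ∈ F, ∀ y ∈ F, D ∣ x - y) :
    F.card ≤ ⌊2 * S / D⌋₊ + 1 := by
  rcases F.eq_empty_or_nonempty with h | h
  · rw [h, Finset.card_empty]
    exact Nat.zero_le _
  · have hx0 := F.min'_mem h
    set x0 := F.min' h with hx0d
    have hDr : (0 : ℝ) < D := by exact_mod_cast hD
    rw [← Finset.card_range (⌊2 * S / D⌋₊ + 1)]
    refine Finset.card_le_card_of_injOn (fun x => ((x - x0) / D).toNat) ?_ ?_
    · intro x hx
      rw [Finset.mem_coe] at hx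
      have hle : x0 ≤ x := F.min'_le x hx
      obtain ⟨k, hk⟩ := hc x hx x0 hx0
      have hk0 : 0 ≤ k := by
        by_contra hneg
        have : D * k < 0 := mul_neg_of_pos_of_neg hD (by omega)
        omega
      have hxk : (x - x0) / D = k := by
        rw [hk]
        exact Int.mul_ediv_cancel_left _ hD.ne'
      simp only [Finset.coe_range, Set.mem_Iio]
      rw [hxk]
      have h1 := (abs_le.1 (hF x hx)).2
      have h2 := (abs_le.1 (hF x0 hx0)).1
      have h3 : (D : ℝ) * k ≤ 2 * S := by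
        have : (D : ℝ) * k = x - x0 := by exact_mod_cast hk.symm
        rw [this]
        linarith
      have h4 : (k.toNat : ℝ) ≤ 2 * S / D := by
        have : ((k.toNat : ℤ) : ℝ) = k := by
          rw [Int.toNat_of_nonneg hk0]
        have h5 : (k.toNat : ℝ) = k := by exact_mod_cast this
        rw [h5, le_div_iff₀ hDr]
        linarith
      exact Nat.lt_succ_of_le (Nat.le_floor h4)
    · intro x hx y hy hxy
      rw [Finset.mem_coe] at hx hy
      have hlex : x0 ≤ x := F.min'_le x hx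
      have hley : x0 ≤ y := F.min'_le y hy
      obtain ⟨k, hk⟩ := hc x hx x0 hx0
      obtain ⟨m, hm⟩ := hc y hy x0 hx0
      have hk0 : 0 ≤ k := by
        by_contra hneg
        have : D * k < 0 := mul_neg_of_pos_of_neg hD (by omega)
        omega
      have hm0 : 0 ≤ m := by
        by_contra hneg
        have : D * m < 0 := mul_neg_of_pos_of_neg hD (by omega)
        omega
      simp only at hxy
      rw [hk, hm, Int.mul_ediv_cancel_left _ hD.ne', Int.mul_ediv_cancel_left _ hD.ne'] at hxy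
      have : k = m := by omega
      subst this
      omega

/-- the part coprime to `b` -/
theorem cop_pos (b : ℤ) (n : ℕ) : 0 < cop b n := by
  unfold cop
  refine Finset.prod_pos fun t ht => ?_
  exact pow_pos (Nat.prime_of_mem_primeFactors (Finset.mem_filter.1 ht).1).pos _

theorem cop_dvd (b : ℤ) (n : ℕ) (hn : n ≠ 0) : cop b n ∣ n := by
  conv_rhs => rw [← Nat.prod_factorization_pow_eq_self hn]
  unfold cop
  rw [Finsupp.prod, Nat.support_factorization]
  exact Finset.prod_dvd_prod_of_subset _ _ _ (Finset.filter_subset _ _)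

theorem cop_prime (b : ℤ) (n : ℕ) (p : ℕ) (hp : p.Prime) (h : p ∣ cop b n) :
    ¬ ((p : ℤ) ∣ b) ∧ p ∣ n := by
  unfold cop at h
  obtain ⟨t, ht, hpt⟩ := (hp.prime.dvd_finset_prod_iff _).1 h
  obtain ⟨ht1, ht2⟩ := Finset.mem_filter.1 ht
  have htp := Nat.prime_of_mem_primeFactors ht1
  have := hp.prime.dvd_of_dvd_pow hpt
  rw [Nat.prime_dvd_prime_iff_eq hp htp] at this
  subst this
  exact ⟨ht2, Nat.dvd_of_mem_primeFactors ht1⟩

theorem cop_isCoprime (b : ℤ) (n : ℕ) (x : ℤ)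
    (h : ∀ p : ℕ, p.Prime → p ∣ cop b n → ¬ ((p : ℤ) ∣ x)) : IsCoprime ((cop b n : ℕ) : ℤ) x := by
  rw [Int.isCoprime_iff_gcd_eq_one]
  by_contra hne
  obtain ⟨p, hp, hpd⟩ := Nat.exists_prime_and_dvd hne
  have h1 : (p : ℤ) ∣ (cop b n : ℕ) :=
    (Int.natCast_dvd_natCast.2 hpd).trans (Int.gcd_dvd_left _ _)
  have h2 : (p : ℤ) ∣ x := (Int.natCast_dvd_natCast.2 hpd).trans (Int.gcd_dvd_right _ _)
  exact h p hp (Int.natCast_dvd_natCast.1 h1) h2

theorem n3s : T_N3S := by
  intro b hb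
  refine ⟨4, fun s₂ l S hs hl hS hcop => ?_⟩
  set n := s₂.natAbs with hn
  have hn0 : n ≠ 0 := Int.natAbs_ne_zero.2 hs
  set M := cop b n with hM
  have hMpos : 0 < M := cop_pos b n
  haveI : NeZero M := ⟨hMpos.ne'⟩
  have hMn : M ∣ n := cop_dvd b n hn0
  have hMs : (M : ℤ) ∣ s₂ := Int.natCast_dvd.2 hMn
  have hdn : ∀ p : ℕ, p ∣ n → (p : ℤ) ∣ s₂ := fun p hp => Int.natCast_dvd.2 hp
  have cb : IsCoprime (M : ℤ) b := cop_isCoprime b n b fun p hp hpM => (cop_prime b n p hp hpM).1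
  have cl : IsCoprime (M : ℤ) l := cop_isCoprime b n l fun p hp hpM hpl =>
    hcop p (Nat.prime_iff_prime_int.1 hp) (cop_prime b n p hp hpM).1
      ⟨hdn p (cop_prime b n p hp hpM).2, hpl⟩
  set R : Set ℤ := {x : ℤ | 0 ≤ x ∧ x < l ∧ l ∣ x ^ 2 - s₂ * x + s₂ ^ 2} with hR
  have hRf : R.Finite := (Set.finite_Ico 0 l).subset fun x hx => ⟨hx.1, hx.2.1⟩
  have hRc : R.ncard = rho s₂ l := rfl
  set U1 : Set (ZMod M) := {x | IsUnit x ∧ (b : ZMod M) * x ^ 3 = -(l : ZMod M) ^ 3} with hU1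
  set U2 : Set (ZMod M) := {x | IsUnit x ∧ x ^ 3 = -((b : ZMod M) * (l : ZMod M) ^ 3)} with hU2
  have hbu : IsUnit (b : ZMod M) := (ZMod.coe_int_isUnit_iff_isCoprime b M).2 cb
  have hom : 3 ^ om M ≤ 3 ^ om n := by
    refine Nat.pow_le_pow_right (by norm_num) ?_
    exact Finset.card_le_card (Nat.primeFactors_mono hMn hn0)
  have c1 : U1.ncard ≤ 3 ^ om n := by
    refine (same_cube M hMpos.ne' U1 (fun x hx => hx.1) fun x hx y hy => ?_).trans hom
    exact hbu.mul_left_cancel (hx.2.trans hy.2.symm)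
  have c2 : U2.ncard ≤ 3 ^ om n := by
    refine (same_cube M hMpos.ne' U2 (fun x hx => hx.1) fun x hx y hy => ?_).trans hom
    exact hx.2.trans hy.2.symm
  set T : Set ℤ := {s₁ : ℤ | |(s₁ : ℝ)| ≤ S ∧ (∀ t : ℤ, Prime t → ¬ t ∣ b → ¬ (t ∣ s₁ ∧ t ∣ s₂)) ∧
    ∃ q : ℤ, l * q = s₁ ^ 2 - s₁ * s₂ + s₂ ^ 2 ∧
      (s₂ ∣ s₁ * l + b * q ^ 2 ∨ s₂ ∣ s₁ * q + b * l ^ 2)} with hT
  have hTf : T.Finite := by
    refine (Set.finite_Icc (-⌊S⌋) ⌊S⌋).subset fun x hx => ?_
    obtain ⟨h1, h2⟩ := abs_le.1 hx.1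
    constructor
    · have : (-x : ℤ) ≤ ⌊S⌋ := Int.le_floor.2 (by push_cast; linarith)
      omega
    · exact Int.le_floor.2 h2
  have hMz : ∀ z : ℤ, (M : ℤ) ∣ z → (z : ZMod M) = 0 := fun z hz =>
    (ZMod.intCast_zmod_eq_zero_iff_dvd z M).2 hz
  have hmem : ∀ x ∈ T, x % l ∈ R ∧ ((x : ZMod M) ∈ U1 ∪ U2) := by
    rintro x ⟨hxS, hxc, q, hq, hx⟩
    have hxl : l ∣ x ^ 2 - s₂ * x + s₂ ^ 2 := ⟨q, by rw [hq]; ring⟩
    have hxu : IsUnit (x : ZMod M) := by
      refine (ZMod.coe_int_isUnit_iff_isCoprime x M).2 ?_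
      refine cop_isCoprime b n x fun p hp hpM hpx => ?_
      exact hxc p (Nat.prime_iff_prime_int.1 hp) (cop_prime b n p hp hpM).1
        ⟨hpx, hdn p (cop_prime b n p hp hpM).2⟩
    refine ⟨⟨Int.emod_nonneg _ hl.ne', Int.emod_lt_of_pos _ hl, ?_⟩, ?_⟩
    · have h1 : x % l = x - l * (x / l) := by
        have := Int.emod_add_mul_ediv x l
        linarith
      obtain ⟨w, hw⟩ := hxl
      rw [h1]
      refine ⟨w - 2 * x * (x / l) + l * (x / l) ^ 2 + s₂ * (x / l), ?_⟩
      linear_combination hw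
    · have hs0 : (s₂ : ZMod M) = 0 := hMz s₂ hMs
      have hq' : (l : ZMod M) * (q : ZMod M) = (x : ZMod M) ^ 2 := by
        have := congrArg (Int.cast : ℤ → ZMod M) hq
        push_cast at this
        rw [this, hs0]
        ring
      rcases hx with h | h
      · left
        have h0 := hMz _ (hMs.trans h)
        push_cast at h0
        refine ⟨hxu, hxu.mul_left_cancel ?_⟩
        linear_combination (l : ZMod M) ^ 2 * h0 -
          (b : ZMod M) * ((l : ZMod M) * q + (x : ZMod M) ^ 2) * hq'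
      · right
        have h0 := hMz _ (hMs.trans h)
        push_cast at h0
        refine ⟨hxu, ?_⟩
        linear_combination (l : ZMod M) * h0 - (x : ZMod M) * hq'
  classical
  set f : ℤ → ℤ × ZMod M := fun x => (x % l, (x : ZMod M)) with hf
  have hDpos : 0 < l * (M : ℤ) := mul_pos hl (by exact_mod_cast hMpos)
  have hfib : ∀ a ∈ hTf.toFinset.image f,
      (hTf.toFinset.filter fun x => f x = a).card ≤ ⌊2 * S / ((l * (M : ℤ) : ℤ) : ℝ)⌋₊ + 1 := by
    intro a _
    refine fib _ _ hDpos S hS (fun x hx => ?_) fun x hx y hy => ?_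
    · exact ((hTf.mem_toFinset).1 (Finset.mem_filter.1 hx).1).1
    · have hxy : f x = f y := (Finset.mem_filter.1 hx).2.trans (Finset.mem_filter.1 hy).2.symm
      have h1 : x % l = y % l := congrArg Prod.fst hxy
      have h2 : (x : ZMod M) = (y : ZMod M) := congrArg Prod.snd hxy
      have h3 : l ∣ x - y := Int.ModEq.dvd (show y % l = x % l from h1.symm)
      have h4 : (M : ℤ) ∣ x - y := by
        rw [← ZMod.intCast_zmod_eq_zero_iff_dvd]
        push_cast
        rw [h2, sub_self]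
      exact cl.symm.mul_dvd h3 h4
  have hcard := Finset.card_le_mul_card_image hTf.toFinset _ hfib
  have himg : (hTf.toFinset.image f).card ≤ rho s₂ l * (2 * 3 ^ om n) := by
    have h1 : ((hTf.toFinset.image f : Finset (ℤ × ZMod M)) : Set (ℤ × ZMod M)) ⊆
        R ×ˢ (U1 ∪ U2) := by
      intro a ha
      rw [Finset.coe_image] at ha
      obtain ⟨x, hx, rfl⟩ := ha
      exact hmem x ((hTf.mem_toFinset).1 hx)
    have h2 := Set.ncard_le_ncard h1 (hRf.prod (Set.toFinite _))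
    rw [Set.ncard_coe_finset, Set.ncard_prod] at h2
    refine h2.trans ?_
    rw [hRc]
    refine Nat.mul_le_mul_left _ ?_
    refine (Set.ncard_union_le _ _).trans ?_
    omega
  have hTc : T.ncard = hTf.toFinset.card := Set.ncard_eq_toFinset_card T hTf
  have hfin : T.ncard ≤ (⌊2 * S / ((l * (M : ℤ) : ℤ) : ℝ)⌋₊ + 1) *
      (rho s₂ l * (2 * 3 ^ om n)) := by
    rw [hTc]
    exact hcard.trans (Nat.mul_le_mul_left _ himg)
  have hlr : (0 : ℝ) < l := by exact_mod_cast hl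
  have hMr : (0 : ℝ) < M := by exact_mod_cast hMpos
  have hfl : (⌊2 * S / ((l * (M : ℤ) : ℤ) : ℝ)⌋₊ : ℝ) ≤ 2 * (S / (l * (M : ℝ))) := by
    refine (Nat.floor_le (by positivity)).trans ?_
    push_cast
    rw [mul_div_assoc]
  have hr0 : (0 : ℝ) ≤ rho s₂ l := Nat.cast_nonneg _
  have h3 : (0 : ℝ) ≤ 3 ^ om n := by positivity
  calc (T.ncard : ℝ) ≤ ((⌊2 * S / ((l * (M : ℤ) : ℤ) : ℝ)⌋₊ + 1) *
      (rho s₂ l * (2 * 3 ^ om n)) : ℕ) := by exact_mod_cast hfin
    _ = ((⌊2 * S / ((l * (M : ℤ) : ℤ) : ℝ)⌋₊ : ℝ) + 1) * (rho s₂ l * (2 * 3 ^ om n)) := by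
      push_cast
      ring
    _ ≤ (2 * (S / (l * (M : ℝ))) + 2) * (rho s₂ l * (2 * 3 ^ om n)) := by
      refine mul_le_mul_of_nonneg_right ?_ (by positivity)
      linarith
    _ = 4 * 3 ^ om n * rho s₂ l * (S / (l * (M : ℝ)) + 1) := by ring

end Pool.Agent.H56.GF
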